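import Pool.Agent.W186.SZ.UP
import Pool.Agent.W186.SX.Fin

set_option autoImplicit false

/-!
# Zeros of shifted sums and the exponent of zeta at one line
-/

namespace Pool.Agent.W186.SZ

open Complex Filter Topology Set
open Pool.Agent.H24R2.JP (XX HH Om)
open Pool.Agent.W186.HZ
open Pool.Agent.W186.LH (Ex Ex_of ord_tr LHyp plr cont_line)
open Pool.Agent.W186.SX (Up BB BB_base xi_XX)
open Pool.Agent.W186.SN (plk)
open Pool.Agent.W186.EH (Ex_lim)
open Pool.Agent.H986R2.K4 (xi)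

/-- few zeros off the line, as the height tends to infinity -/
def FewZ (c : ℂ) (h : ℝ) : Prop := ∀ δ ε : ℝ, 0 < δ → 0 < ε → ∃ T0 : ℝ, ∀ T : ℝ, T0 ≤ T →
  ∀ S : Finset ℂ, (∀ s ∈ S, xi (s + h) + c * xi (s - h) = 0 ∧ δ ≤ |s.re - 1 / 2| ∧ |s.im - T| ≤ 1) →
    ∑ s ∈ S, (analyticOrderNatAt (fun s => xi (s + h) + c * xi (s - h)) s : ℝ) ≤ ε * Real.log T

lemma DD_diff (c : ℂ) (h : ℝ) : Differentiable ℂ (DD c h) := by
  have h1 : Differentiable ℂ XX := Pool.Agent.H24R2.JP.B1h.XX_diff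
  unfold DD
  exact (h1.comp (by fun_prop)).add ((h1.comp (by fun_prop)).const_mul c)

lemma DD_BB (c : ℂ) (h : ℝ) (z : ℂ) : DD c h z = BB (fun _ : Fin 1 => c) (fun _ => 2 * h) (z + h) := by
  unfold DD BB
  rw [Fin.sum_univ_one]
  congr 3
  push_cast
  ring

lemma DD_ne (c : ℂ) {h : ℝ} (hh0 : 0 < h) (hh1 : h ≤ 1 / 2) : ∃ u, DD c h u ≠ 0 := by
  obtain ⟨T0, hT0, hB⟩ := BB_base (fun _ : Fin 1 => c) (fun _ => 2 * h) (γ := 2 * h) (by linarith) (by linarith)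
    (fun _ => le_rfl) (fun _ => by linarith) 1 one_pos
  have h1 := ((hB T0 2 le_rfl (by norm_num) (by norm_num) (by norm_num)).2 (by norm_num)).1
  have him : 0 < (I * (T0 : ℂ)).im := by simp; linarith
  have hHp : 0 < ‖HH (I * T0)‖ := norm_pos_iff.2 (Pool.Agent.H24R2.JP.StirAux.HH_ne him)
  refine ⟨I * T0 + 2 - h, fun h0 => ?_⟩
  rw [DD_BB, sub_add_cancel] at h0
  rw [h0, norm_zero] at h1
  have : 0 < Real.exp (Om T0 * ((2 : ℂ).re - 1)) * ‖HH (I * T0)‖ := by positivity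
  linarith

lemma D_eq (c : ℂ) (h : ℝ) (s : ℂ) : xi (s + h) + c * xi (s - h) = 1 / 8 * DD c h (s - 1 / 2) := by
  unfold DD
  rw [xi_XX, xi_XX]
  have e1 : s + (h : ℂ) - 1 / 2 = s - 1 / 2 + h := by ring
  have e2 : s - (h : ℂ) - 1 / 2 = s - 1 / 2 - h := by ring
  rw [e1, e2]
  ring

lemma D_ord (c : ℂ) {h : ℝ} (hh0 : 0 < h) (hh1 : h ≤ 1 / 2) (s : ℂ) :
    analyticOrderNatAt (fun s => xi (s + h) + c * xi (s - h)) s = analyticOrderNatAt (DD c h) (s - 1 / 2) := by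
  have h2 := ord_tr (G := DD c h) (E := fun _ => 1 / 8) (DD_diff c h) (DD_ne c hh0 hh1) (one_ne_zero)
    (b := -(1 / 2)) (by fun_prop) (fun u => by norm_num) s
  have e : (fun s => xi (s + h) + c * xi (s - h)) = fun u => DD c h (1 * u + -(1 / 2)) * (1 / 8) := by
    funext u
    rw [D_eq, one_mul, ← sub_eq_add_neg, mul_comm]
  rw [e, h2, one_mul, ← sub_eq_add_neg]

lemma few_iff (c : ℂ) {h : ℝ} (hh0 : 0 < h) (hh1 : h ≤ 1 / 2) : FewZ c h ↔ FewX c h := by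
  classical
  constructor
  · intro hf δ ε hδ hε
    obtain ⟨T0, h0⟩ := hf δ (ε / 2) hδ (by linarith)
    refine ⟨T0, fun T hT S hS => ?_⟩
    have key := h0 T hT (S.image fun z => z + 1 / 2) (by
      intro s hs
      rw [Finset.mem_image] at hs
      obtain ⟨z, hz, rfl⟩ := hs
      obtain ⟨z0, z1, z2⟩ := hS z hz
      have e1 : (z + 1 / 2).re - 1 / 2 = z.re := by simp
      have e2 : (z + 1 / 2).im = z.im := by simp
      rw [D_eq, e1, e2]
      refine ⟨?_, z1, z2⟩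
      have e3 : z + 1 / 2 - 1 / 2 = z := by ring
      rw [e3, z0, mul_zero])
    rw [Finset.sum_image (by
      intro a _ b _ hab
      exact add_right_cancel hab)] at key
    have e4 : ∑ z ∈ S, (analyticOrderNatAt (DD c h) z : ℝ) = ∑ z ∈ S,
        (analyticOrderNatAt (fun s => xi (s + h) + c * xi (s - h)) (z + 1 / 2) : ℝ) := by
      refine Finset.sum_congr rfl fun z _ => ?_
      rw [D_ord c hh0 hh1]
      have e3 : z + 1 / 2 - 1 / 2 = z := by ring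
      rw [e3]
    rw [e4]
    refine key.trans (le_of_eq ?_)
    unfold Om
    ring
  · intro hf δ ε hδ hε
    obtain ⟨T0, h0⟩ := hf δ (2 * ε) hδ (by linarith)
    refine ⟨T0, fun T hT S hS => ?_⟩
    have key := h0 T hT (S.image fun s => s - 1 / 2) (by
      intro z hz
      rw [Finset.mem_image] at hz
      obtain ⟨s, hs, rfl⟩ := hz
      obtain ⟨s0, s1, s2⟩ := hS s hs
      have e1 : (s - 1 / 2).re = s.re - 1 / 2 := by simp
      have e2 : (s - 1 / 2).im = s.im := by simp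
      rw [e1, e2]
      refine ⟨?_, s1, s2⟩
      rw [D_eq] at s0
      rcases mul_eq_zero.1 s0 with h1 | h1
      · norm_num at h1
      · exact h1)
    rw [Finset.sum_image (by
      intro a _ b _ hab
      exact sub_left_injective hab)] at key
    have e4 : ∑ s ∈ S, (analyticOrderNatAt (fun s => xi (s + h) + c * xi (s - h)) s : ℝ) = ∑ s ∈ S,
        (analyticOrderNatAt (DD c h) (s - 1 / 2) : ℝ) := by
      refine Finset.sum_congr rfl fun s _ => ?_
      rw [D_ord c hh0 hh1]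
    rw [e4]
    refine key.trans (le_of_eq ?_)
    unfold Om
    ring

lemma ex_of_lh (h : LHyp) {σ : ℝ} (h1 : 1 / 2 ≤ σ) (h2 : σ ≤ 1) : Ex σ 0 := by
  intro ε' hε'
  obtain ⟨C, hC⟩ := h ε' hε'
  obtain ⟨C', hC'⟩ := plr ε' hε'.le (max C 0 * 2 ^ ε') (by
    intro t ht
    have h3 := hC t
    have h4 : (1 + |t|) ^ ε' ≤ (2 * |t|) ^ ε' := Real.rpow_le_rpow (by positivity) (by linarith) hε'.le
    rw [Real.mul_rpow (by norm_num) (abs_nonneg _)] at h4
    calc ‖riemannZeta (1 / 2 + t * I)‖ ≤ C * (1 + |t|) ^ ε' := h3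
      _ ≤ max C 0 * (1 + |t|) ^ ε' := mul_le_mul_of_nonneg_right (le_max_left _ _) (by positivity)
      _ ≤ max C 0 * (2 ^ ε' * |t| ^ ε') := mul_le_mul_of_nonneg_left h4 (le_max_right _ _)
      _ = _ := by ring)
  refine ⟨C', fun t ht => ?_⟩
  rw [zero_add]
  exact hC' σ h1 h2 t ht

lemma ex_half {h : ℝ} (hh0 : 0 < h) (hh1 : h ≤ 1 / 2) (hE : Ex (1 / 2 + h) 0) : Ex (1 / 2) (h / 2) := by
  refine Ex_of _ _ (by linarith) fun ε hε => ?_
  obtain ⟨e, he⟩ : ∃ e : ℝ, e = min (ε / 8) (1 / 4) := ⟨_, rfl⟩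
  have he0 : 0 < e := by rw [he]; exact lt_min (by linarith) (by norm_num)
  have he1 : e ≤ ε / 8 := by rw [he]; exact min_le_left _ _
  have he2 : e ≤ 1 / 4 := by rw [he]; exact min_le_right _ _
  obtain ⟨C0, hC0⟩ := hE e he0
  obtain ⟨T1, hT1, hb⟩ := plk h e (max C0 1) hh0 (by linarith) he0.le (by linarith)
    (lt_of_lt_of_le one_pos (le_max_right _ _)) (by
      intro t ht
      have h3 := hC0 t (by rw [abs_of_nonneg (by linarith)]; linarith)
      rw [abs_of_nonneg (by linarith : 0 ≤ t), zero_add] at h3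
      have e : (1 / 2 + (h : ℂ) + t * I) = ((1 / 2 + h : ℝ) : ℂ) + t * I := by
        push_cast; ring
      rw [e]
      refine h3.trans ?_
      exact mul_le_mul_of_nonneg_right (le_max_left _ _) (by positivity)) e he0
  refine ⟨T1, fun t ht => ?_⟩
  have h1 := hb t ht 0 (by simp; linarith) (by simp)
  rw [add_zero] at h1
  have ht400 : 400 ≤ t := hT1.trans ht
  have him : 0 < (I * (t : ℂ)).im := by simp; linarith
  rw [Pool.Agent.H24R2.JP.zetaS.1 _ him, norm_mul] at h1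
  have hHp : 0 < ‖HH (I * t)‖ := norm_pos_iff.2 (Pool.Agent.H24R2.JP.StirAux.HH_ne him)
  have h2 : ‖riemannZeta (1 / 2 + I * t)‖ ≤ Real.exp (Om t * (h + 2 * e + e)) := by
    refine le_of_mul_le_mul_left ?_ hHp
    rw [mul_comm _ (Real.exp _)]
    exact h1
  have e2 : ((1 / 2 : ℝ) : ℂ) + t * I = 1 / 2 + I * t := by push_cast; ring
  rw [e2]
  refine h2.trans ?_
  rw [Real.rpow_def_of_pos (by linarith)]
  apply Real.exp_le_exp.2
  have hl : 0 ≤ Real.log t := Real.log_nonneg (by linarith)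
  have e3 : Om t = Real.log t / 2 := rfl
  rw [e3]
  have h5 : Real.log t * e ≤ Real.log t * (ε / 8) := mul_le_mul_of_nonneg_left he1 hl
  have h6 : 0 ≤ Real.log t * ε := by positivity
  linarith

lemma lh_of_ex (h : Ex (1 / 2) 0) : LHyp := by
  intro ε hε
  obtain ⟨C, hC⟩ := h ε hε
  rw [zero_add] at hC
  obtain ⟨B, hB⟩ := isCompact_Icc.exists_bound_of_continuousOn (cont_line (1 / 2) (a := -1) (b := 1)
    (Or.inl (by norm_num)))
  have e2 : ∀ t : ℝ, ((1 / 2 : ℝ) : ℂ) + t * I = 1 / 2 + t * I := by intro t; push_cast; ring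
  refine ⟨max C 0 + |B|, fun t => ?_⟩
  have h0 := abs_nonneg t
  have hp1 : 1 ≤ (1 + |t|) ^ ε := Real.one_le_rpow (by linarith) hε.le
  rcases le_or_gt 1 |t| with h2 | h2
  · have h3 := hC t h2
    rw [e2] at h3
    have h4 : |t| ^ ε ≤ (1 + |t|) ^ ε := Real.rpow_le_rpow h0 (by linarith) hε.le
    have h5 : 0 ≤ |t| ^ ε := by positivity
    calc ‖riemannZeta (1 / 2 + t * I)‖ ≤ C * |t| ^ ε := h3
      _ ≤ max C 0 * |t| ^ ε := mul_le_mul_of_nonneg_right (le_max_left _ _) h5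
      _ ≤ max C 0 * (1 + |t|) ^ ε := mul_le_mul_of_nonneg_left h4 (le_max_right _ _)
      _ ≤ _ := mul_le_mul_of_nonneg_right (by linarith [abs_nonneg B]) (by positivity)
  · rw [abs_lt] at h2
    have h3 := hB t ⟨h2.1.le, h2.2.le⟩
    rw [e2] at h3
    have h4 := le_abs_self B
    have h5 := le_max_right C 0
    have h6 := abs_nonneg B
    calc ‖riemannZeta (1 / 2 + t * I)‖ ≤ max C 0 + |B| := by linarith
      _ ≤ (max C 0 + |B|) * (1 + |t|) ^ ε := le_mul_of_one_le_right (by positivity) hp1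

lemma lh_of_small (h : ∀ η : ℝ, 0 < η → ∃ h : ℝ, 0 < h ∧ h < η ∧ h ≤ 1 / 2 ∧ Ex (1 / 2 + h) 0) : LHyp := by
  refine lh_of_ex (Ex_lim fun η hη => ?_)
  obtain ⟨h, h0, h1, h2, h3⟩ := h η hη
  exact ⟨h / 2, by linarith, ex_half h0 h2 h3⟩

/-- the theorem from the three steps -/
theorem main_of (hc : S_CNT) (hl : S_LINE) (hs : S_STRIP) :
    (∀ (c : ℂ) (h : ℝ), ‖c‖ = 1 → 0 ≤ c.im → 0 < h → h ≤ 1 / 2 → (FewZ c h ↔ Ex (1 / 2 + h) 0)) ∧
    (∀ (c : ℂ) (h : ℝ), ‖c‖ = 1 → 0 < h → h ≤ 1 / 2 →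
      (FewZ c h ∧ FewZ ((starRingEnd ℂ) c) h ↔ Ex (1 / 2 + h) 0)) ∧
    (∀ c : ℂ, ‖c‖ = 1 → 0 ≤ c.im → (LHyp ↔ ∀ h : ℝ, 0 < h → h ≤ 1 / 2 → FewZ c h)) ∧
    (∀ c : ℂ, ‖c‖ = 1 → 0 ≤ c.im → (LHyp ↔ ∀ η : ℝ, 0 < η → ∃ h : ℝ, 0 < h ∧ h < η ∧ h ≤ 1 / 2 ∧ FewZ c h)) := by
  have fwd : ∀ (c : ℂ) (h : ℝ), ‖c‖ = 1 → 0 < h → h ≤ 1 / 2 → Ex (1 / 2 + h) 0 → FewZ c h := by
    intro c h hc1 h0 h1 hE
    rw [few_iff c h0 h1]
    exact hc c h hc1 h0 h1 (up h h0 h1 hE)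
  have bwd : ∀ (c : ℂ) (h : ℝ), ‖c‖ = 1 → 0 ≤ c.im → 0 < h → h ≤ 1 / 2 → FewZ c h → Ex (1 / 2 + h) 0 := by
    intro c h hc1 hci h0 h1 hf
    rw [few_iff c h0 h1] at hf
    exact hs c h hc1 hci h0 h1 (hl c h hc1 h0 h1 hf)
  refine ⟨fun c h hc1 hci h0 h1 => ⟨bwd c h hc1 hci h0 h1, fwd c h hc1 h0 h1⟩, fun c h hc1 h0 h1 => ?_,
    fun c hc1 hci => ?_, fun c hc1 hci => ?_⟩
  · have hc2 : ‖(starRingEnd ℂ) c‖ = 1 := by rw [Complex.norm_conj]; exact hc1
    constructor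
    · rintro ⟨f1, f2⟩
      rcases le_total 0 c.im with h2 | h2
      · exact bwd c h hc1 h2 h0 h1 f1
      · exact bwd _ h hc2 (by rw [Complex.conj_im]; linarith) h0 h1 f2
    · intro hE
      exact ⟨fwd c h hc1 h0 h1 hE, fwd _ h hc2 h0 h1 hE⟩
  · constructor
    · intro hL h h0 h1
      exact fwd c h hc1 h0 h1 (ex_of_lh hL (by linarith) (by linarith))
    · intro hf
      refine lh_of_small fun η hη => ?_
      refine ⟨min (η / 2) (1 / 2), lt_min (by linarith) (by norm_num),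
        (min_le_left _ _).trans_lt (by linarith), min_le_right _ _, ?_⟩
      exact bwd c _ hc1 hci (lt_min (by linarith) (by norm_num)) (min_le_right _ _)
        (hf _ (lt_min (by linarith) (by norm_num)) (min_le_right _ _))
  · constructor
    · intro hL η hη
      refine ⟨min (η / 2) (1 / 2), lt_min (by linarith) (by norm_num),
        (min_le_left _ _).trans_lt (by linarith), min_le_right _ _, ?_⟩
      exact fwd c _ hc1 (lt_min (by linarith) (by norm_num)) (min_le_right _ _)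
        (ex_of_lh hL (by linarith [lt_min (by linarith : 0 < η / 2) (by norm_num : (0 : ℝ) < 1 / 2)])
          (by linarith [min_le_right (η / 2) (1 / 2)]))
    · intro hf
      refine lh_of_small fun η hη => ?_
      obtain ⟨h, h0, h1, h2, h3⟩ := hf η hη
      exact ⟨h, h0, h1, h2, bwd c h hc1 hci h0 h2 h3⟩

end Pool.Agent.W186.SZ
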