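import Pool.Agent.W186.SX.Bw
import Pool.Agent.W186.SX.On
import Pool.Agent.W186.LH.Fin
import Pool.Agent.W186.EH.Num

set_option autoImplicit false

/-!
# Zeros of shifted sums: the statements of the steps

`XX z` is eight times xi at `1/2 + z`.
-/

namespace Pool.Agent.W186.SZ

open Complex Filter Topology Set
open Pool.Agent.H24R2.JP (XX HH Om)
open Pool.Agent.W186.LH (Ex)
open Pool.Agent.W186.SX (Up)

/-- the shifted sum -/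
noncomputable def DD (c : ℂ) (h : ℝ) (z : ℂ) : ℂ := XX (z + h) + c * XX (z - h)

/-- few zeros off the line near height `T`, as `T` tends to infinity -/
def FewX (c : ℂ) (h : ℝ) : Prop := ∀ δ ε : ℝ, 0 < δ → 0 < ε → ∃ T0 : ℝ, ∀ T : ℝ, T0 ≤ T →
  ∀ S : Finset ℂ, (∀ z ∈ S, DD c h z = 0 ∧ δ ≤ |z.re| ∧ |z.im - T| ≤ 1) →
    ∑ z ∈ S, (analyticOrderNatAt (DD c h) z : ℝ) ≤ ε * Om T

/-- size of the shifted sum on the line -/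
def LineB (c : ℂ) (h : ℝ) : Prop := ∀ ε : ℝ, 0 < ε → ∃ T0 : ℝ, ∀ T : ℝ, T0 ≤ T →
  ‖DD c h (I * T)‖ ≤ Real.exp (Om T * (h + ε)) * ‖HH (I * T)‖

def S_UP : Prop := ∀ h : ℝ, 0 < h → h ≤ 1 / 2 → Ex (1 / 2 + h) 0 →
  ∀ ε R : ℝ, 0 < ε → 1 ≤ R → Up (fun r => max r h) ε R

def S_CNT : Prop := ∀ (c : ℂ) (h : ℝ), ‖c‖ = 1 → 0 < h → h ≤ 1 / 2 →
  (∀ ε R : ℝ, 0 < ε → 1 ≤ R → Up (fun r => max r h) ε R) → FewX c h

def S_LINE : Prop := ∀ (c : ℂ) (h : ℝ), ‖c‖ = 1 → 0 < h → h ≤ 1 / 2 → FewX c h → LineB c h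

def S_STRIP : Prop := ∀ (c : ℂ) (h : ℝ), ‖c‖ = 1 → 0 ≤ c.im → 0 < h → h ≤ 1 / 2 → LineB c h → Ex (1 / 2 + h) 0

end Pool.Agent.W186.SZ
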