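import Pool.Agent.W186.SZ.Spec

set_option autoImplicit false

/-!
# The upper bound from the exponent at one line
-/

namespace Pool.Agent.W186.SZ

open Complex Filter Topology Set
open Pool.Agent.H24R2.JP (XX HH Om)
open Pool.Agent.W186.HZ
open Pool.Agent.W186.LH (Ex Ex_of)
open Pool.Agent.W186.SX (Up up_of FF_line interp)
open Pool.Agent.W186.SN (plk)

lemma Ex_unif {l u : ℝ} (hl : 1 / 2 ≤ l) (hlu : l < u) (hu : u ≤ 1)
    (hA : Ex l 0) (hB : Ex u 0) {ε : ℝ} (hε : 0 < ε) : ∃ C : ℝ, 0 < C ∧ ∀ σ : ℝ, l ≤ σ → σ ≤ u →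
      ∀ t : ℝ, 1 ≤ |t| → ‖riemannZeta (σ + t * I)‖ ≤ C * |t| ^ ε := by
  obtain ⟨C1, hC1⟩ := hA ε hε
  obtain ⟨C2, hC2⟩ := hB ε hε
  rw [zero_add] at hC1 hC2
  obtain ⟨A, hA, hA'⟩ := FF_line (σ := l) (μ := ε) hl (by linarith) (by linarith) hC1
  obtain ⟨B, hB, hB'⟩ := FF_line (σ := u) (μ := ε) (by linarith) (by linarith) (by linarith) hC2
  obtain ⟨C3, hC3, hi⟩ := interp (l := l) (u := u) hl hlu (by linarith)
    (by linarith : 0 ≤ 1 + ε) (by linarith : 0 ≤ 1 + ε) hA' hB'
  refine ⟨C3 * 2 ^ (1 + ε), by positivity, fun σ h1 h2 t ht => ?_⟩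
  have h3 := hi σ h1 h2 t
  have e1 : (1 - (σ - l) / (u - l)) * (1 + ε) + (σ - l) / (u - l) * (1 + ε) = 1 + ε := by ring
  rw [e1] at h3
  obtain ⟨s, hs⟩ : ∃ s : ℂ, s = σ + t * I := ⟨_, rfl⟩
  have him : s.im = t := by rw [hs]; simp
  rw [← hs] at h3 ⊢
  have hne : s ≠ 1 := by
    intro h
    rw [h] at him
    simp at him
    rw [← him, abs_zero] at ht
    linarith
  have htp : 0 < |t| := by linarith
  rw [show H353.FF s = (s - 1) * riemannZeta s from ZU.J_g2b.FF_ne hne, norm_mul] at h3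
  have h4 : |t| ≤ ‖s - 1‖ := by
    have := abs_im_le_norm (s - 1)
    simpa [him] using this
  have h5 : (1 + |t|) ^ (1 + ε) ≤ (2 * |t|) ^ (1 + ε) :=
    Real.rpow_le_rpow (by positivity) (by linarith) (by linarith)
  rw [Real.mul_rpow (by norm_num) htp.le] at h5
  have h6 : |t| ^ (1 + ε) = |t| * |t| ^ ε := by rw [Real.rpow_add htp, Real.rpow_one]
  rw [h6] at h5
  have h7 : |t| * ‖riemannZeta s‖ ≤ |t| * (C3 * 2 ^ (1 + ε) * |t| ^ ε) := by
    calc |t| * ‖riemannZeta s‖ ≤ ‖s - 1‖ * ‖riemannZeta s‖ := mul_le_mul_of_nonneg_right h4 (norm_nonneg _)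
      _ ≤ C3 * (1 + |t|) ^ (1 + ε) := h3
      _ ≤ C3 * (2 ^ (1 + ε) * (|t| * |t| ^ ε)) := mul_le_mul_of_nonneg_left h5 (by linarith)
      _ = _ := by ring
  exact le_of_mul_le_mul_left h7 htp

theorem up : S_UP := by
  intro h hh0 hh1 hE ε R hε hR
  refine up_of _ R (R + 1) (fun r h0 h1 => ?_) (fun ε' hε' => ?_) ε hε
  · rw [abs_of_nonneg (h0.trans (le_max_left _ _))]
    exact max_le (by linarith) (by linarith)
  obtain ⟨e, he⟩ : ∃ e : ℝ, e = min (ε' / 8) (1 / 4) := ⟨_, rfl⟩
  have he0 : 0 < e := by rw [he]; exact lt_min (by linarith) (by norm_num)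
  have he1 : e ≤ ε' / 8 := by rw [he]; exact min_le_left _ _
  have he2 : e ≤ 1 / 4 := by rw [he]; exact min_le_right _ _
  -- to the left of `h`
  obtain ⟨C0, hC0⟩ := hE e he0
  obtain ⟨T1, hT1, h1⟩ := plk h e (max C0 1) hh0 (by linarith) he0.le (by linarith)
    (lt_of_lt_of_le one_pos (le_max_right _ _)) (by
      intro t ht
      have h3 := hC0 t (by rw [abs_of_nonneg (by linarith)]; linarith)
      rw [abs_of_nonneg (by linarith : 0 ≤ t), zero_add] at h3
      have e : (1 / 2 + (h : ℂ) + t * I) = ((1 / 2 + h : ℝ) : ℂ) + t * I := by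
        push_cast; ring
      rw [e]
      refine h3.trans ?_
      exact mul_le_mul_of_nonneg_right (le_max_left _ _) (by positivity)) e he0
  -- to the right of `1 / 2`
  obtain ⟨T2, hT2, h2⟩ := prof (y := 1 / 2) (by norm_num) le_rfl ct_half e R he0 hR
  -- between
  have hmid : ∃ T3 : ℝ, 400 ≤ T3 ∧ ∀ T r : ℝ, T3 ≤ T → h ≤ r → r ≤ 1 / 2 →
      ‖XX (I * T + r)‖ ≤ Real.exp (Om T * (r + 3 * e)) * ‖HH (I * T)‖ := by
    rcases hh1.lt_or_eq with hlt | heq
    · obtain ⟨C, hC, hz⟩ := Ex_unif (l := 1 / 2 + h) (u := 1) (by linarith) (by linarith) le_rfl hE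
        Pool.Agent.W186.EH.Ex_one he0
      obtain ⟨KH, hKH, hHH⟩ := Pool.Agent.H986R2.K4.hh
      obtain ⟨T3, hT3, hH⟩ := hHH 1 le_rfl
      obtain ⟨T4, hT4, hO⟩ := Om_large ((KH + |Real.log C|) / e)
      refine ⟨max T3 T4, hT4.trans (le_max_right _ _), fun T r hT hr0 hr1 => ?_⟩
      have g3 : T3 ≤ T := (le_max_left _ _).trans hT
      have g4 : T4 ≤ T := (le_max_right _ _).trans hT
      have hOm := hO T g4
      rw [div_le_iff₀ he0] at hOm
      have hT400 : 400 ≤ T := hT4.trans g4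
      have hTp : 0 < T := by linarith
      have hr0' : 0 ≤ r := by linarith
      obtain ⟨-, -, -, -, d4⟩ := hH T (r : ℂ) g3 (by
        rw [Complex.norm_real, Real.norm_eq_abs, abs_of_nonneg hr0']; linarith)
      rw [Complex.ofReal_re] at d4
      have him : 0 < (I * (T : ℂ) + r).im := by simp; linarith
      have hzz := Pool.Agent.H24R2.JP.zetaS.1 (I * T + r) him
      rw [hzz, norm_mul]
      have e5 : (1 / 2 + (I * (T : ℂ) + r)) = ((1 / 2 + r : ℝ) : ℂ) + T * I := by push_cast; ring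
      rw [e5]
      have h6 := hz (1 / 2 + r) (by linarith) (by linarith) T (by rw [abs_of_pos hTp]; linarith)
      rw [abs_of_pos hTp] at h6
      have hCe : C = Real.exp (Real.log C) := (Real.exp_log hC).symm
      have hTe : T ^ e = Real.exp (2 * Om T * e) := by
        rw [Real.rpow_def_of_pos hTp]
        unfold Om
        congr 1
        ring
      calc ‖HH (I * T + r)‖ * ‖riemannZeta (((1 / 2 + r : ℝ) : ℂ) + T * I)‖
          ≤ (Real.exp (Om T * r + KH * 1) * ‖HH (I * T)‖) * (C * T ^ e) :=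
            mul_le_mul d4 h6 (norm_nonneg _) (by positivity)
        _ = Real.exp (Om T * r + KH * 1 + Real.log C + 2 * Om T * e) * ‖HH (I * T)‖ := by
            rw [hTe]
            nth_rewrite 1 [hCe]
            rw [Real.exp_add (Om T * r + KH * 1 + Real.log C), Real.exp_add (Om T * r + KH * 1)]
            ring
        _ ≤ _ := by
            apply mul_le_mul_of_nonneg_right _ (norm_nonneg _)
            apply Real.exp_le_exp.2
            have h7 := le_abs_self (Real.log C)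
            have h8 : 0 ≤ Om T * e := by
              have h9 := abs_nonneg (Real.log C)
              linarith
            linarith
    · refine ⟨T1, hT1, fun T r hT hr0 hr1 => ?_⟩
      have hr : r = h := by linarith
      have := h1 T hT (r : ℂ) (by
        rw [Complex.ofReal_re, abs_of_nonneg (by linarith)]; linarith) (by simp)
      refine this.trans (le_of_eq ?_)
      rw [hr]
      congr 3
      ring
  obtain ⟨T3, hT3, h3⟩ := hmid
  refine ⟨max T1 (max T2 T3), fun T r hT hr0 hr1 => ?_⟩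
  have g1 : T1 ≤ T := (le_max_left _ _).trans hT
  have g2 : T2 ≤ T := ((le_max_left _ _).trans (le_max_right _ _)).trans hT
  have g3 : T3 ≤ T := ((le_max_right _ _).trans (le_max_right _ _)).trans hT
  have hOp : 0 ≤ Om T := by
    unfold Om
    have := Real.log_nonneg (show (1 : ℝ) ≤ T by linarith)
    linarith
  have hmono : ∀ a b : ℝ, a ≤ b → Real.exp (Om T * a) * ‖HH (I * T)‖ ≤ Real.exp (Om T * b) * ‖HH (I * T)‖ := by
    intro a b hab
    have := Real.exp_le_exp.2 (mul_le_mul_of_nonneg_left hab hOp)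
    gcongr
  rcases le_total r h with c1 | c1
  · refine (h1 T g1 (r : ℂ) (by rw [Complex.ofReal_re, abs_of_nonneg hr0]; exact c1) (by simp)).trans
      (hmono _ _ ?_)
    rw [max_eq_right c1]; linarith
  · rcases le_total r (1 / 2) with c2 | c2
    · refine (h3 T r g3 c1 c2).trans (hmono _ _ ?_)
      rw [max_eq_left c1]; linarith
    · have := h2 T g2 (r : ℂ) (by simpa using hr0) (by simpa using hr1) (by simp)
      rw [Complex.ofReal_re, max_eq_left c2] at this
      refine this.trans (hmono _ _ ?_)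
      rw [max_eq_left c1]; linarith

end Pool.Agent.W186.SZ
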